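import Mathlib

/-!
# Density of the derangement-to-permutation ratios of digraphs in `[0, 1/2]`

Outline.  Take `L` cyclically ordered layers of `k = q + 1` vertices, with all arcs from each layer
to the next one; split every vertex `w` into an arc `(w, false) → (w, true)`, and at one vertex of
each of the first `n < L` layers add the reverse arc `(w, true) → (w, false)`.  Every permutation
moves the same number `c` of vertices in each layer.  This gives `d = (k!) ^ L` and
`p / d = ∑ c ≤ k, (1 / (k - c)!) ^ L * (1 + (k - c) / k) ^ n`, which tends to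
`1 + (1 + 1 / k) ^ n` as `L → ∞`.  These limits are dense in `[2, ∞)`.
-/

set_option linter.unusedSectionVars false

namespace Pool.Agent.Results.MP_864c98_co.DenseRatio

open Finset

/-- `d(G)`: the number of derangements on the digraph `G`, i.e. of bijections `σ : V → V` such
that `(v, σ v)` is an arc for every vertex `v`. -/
noncomputable def numDer {V : Type} (G : Digraph V) : ℕ :=
  Nat.card {σ : Equiv.Perm V // ∀ v, G.Adj v (σ v)}

/-- `p(G)`: the number of permutations on the digraph `G`, i.e. of bijections `σ : V → V` such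
that for every vertex `v` either `σ v = v` or `(v, σ v)` is an arc. -/
noncomputable def numPerm {V : Type} (G : Digraph V) : ℕ :=
  Nat.card {σ : Equiv.Perm V // ∀ v, σ v = v ∨ G.Adj v (σ v)}

section gadget

variable {W : Type} [Fintype W] [DecidableEq W]

/-- Split every vertex `w` into `(w, false) → (w, true)`, add back arcs at the vertices of `A`. -/
def splitG (R : W → W → Prop) (A : W → Prop) : Digraph (W × Bool) where
  Adj x y := (x.2 = false ∧ y.2 = true ∧ x.1 = y.1) ∨
    (x.2 = true ∧ y.2 = false ∧ (R x.1 y.1 ∨ (x.1 = y.1 ∧ A x.1)))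

variable (R : W → W → Prop) (A : W → Prop)

def okPerm (π : Equiv.Perm W) : Prop := ∀ w, π w = w ∨ R w (π w)

lemma split_irrefl (v : W × Bool) : ¬ (splitG R A).Adj v v := by
  rintro (⟨h1, h2, -⟩ | ⟨h1, h2, -⟩) <;> simp_all

open Classical in
/-- the function defining the permutation of the split digraph -/
noncomputable def gfun (π : Equiv.Perm W) (B : Finset W) (x : W × Bool) : W × Bool :=
  if (π x.1 ≠ x.1 ∨ x.1 ∈ B) then (if x.2 = true then (π x.1, false) else (x.1, true)) else x

lemma gfun_inj (π : Equiv.Perm W) (B : Finset W) (hB : ∀ w ∈ B, π w = w) :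
    Function.Injective (gfun π B) := by
  classical
  have key : ∀ w, (π w ≠ w ∨ w ∈ B) → (π (π w) ≠ π w ∨ π w ∈ B) := by
    intro w hw
    rcases hw with h | h
    · left; intro h'; exact h (π.injective h')
    · right; rw [hB w h]; exact h
  rintro ⟨x, b⟩ ⟨y, c⟩ h
  unfold gfun at h
  by_cases hx : (π x ≠ x ∨ x ∈ B) <;> by_cases hy : (π y ≠ y ∨ y ∈ B)
  · rw [if_pos hx, if_pos hy] at h
    cases b <;> cases c <;> simp_all
  · rw [if_pos hx, if_neg hy] at h
    cases b <;> cases c <;> simp at h
    · exact absurd (h ▸ hx) hy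
    · exact absurd (h ▸ key x hx) hy
  · rw [if_neg hx, if_pos hy] at h
    cases b <;> cases c <;> simp at h
    · exact absurd (h ▸ key y hy) (h ▸ hx)
    · exact absurd (h ▸ hy) hx
  · rw [if_neg hx, if_neg hy] at h
    exact h

noncomputable def gperm (π : Equiv.Perm W) (B : Finset W) (hB : ∀ w ∈ B, π w = w) :
    Equiv.Perm (W × Bool) :=
  Equiv.ofBijective (gfun π B) (Finite.injective_iff_bijective.mp (gfun_inj π B hB))


lemma gperm_apply (π : Equiv.Perm W) (B : Finset W) (hB : ∀ w ∈ B, π w = w) (x : W × Bool) :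
    gperm π B hB x = gfun π B x := rfl

lemma gperm_ok (π : Equiv.Perm W) (B : Finset W) (hB : ∀ w ∈ B, A w ∧ π w = w)
    (hπ : okPerm R π) (x : W × Bool) :
    gperm π B (fun w hw => (hB w hw).2) x = x ∨
      (splitG R A).Adj x (gperm π B (fun w hw => (hB w hw).2) x) := by
  classical
  rw [gperm_apply]
  obtain ⟨x, b⟩ := x
  unfold gfun
  by_cases hx : (π x ≠ x ∨ x ∈ B)
  · rw [if_pos hx]
    right
    cases b
    · left; simp
    · right
      simp only [if_true, true_and]
      rcases hx with h | h
      · left; exact (hπ x).resolve_left h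
      · right; exact ⟨(hB x h).2.symm, (hB x h).1⟩
  · rw [if_neg hx]; left; rfl

/-- structure of a permutation on the split digraph -/
lemma exists_of_ok (hR : ∀ w, ¬ R w w) (σ : Equiv.Perm (W × Bool))
    (hσ : ∀ v, σ v = v ∨ (splitG R A).Adj v (σ v)) :
    ∃ (π : Equiv.Perm W) (B : Finset W) (hB : ∀ w ∈ B, A w ∧ π w = w), okPerm R π ∧
      gperm π B (fun w hw => (hB w hw).2) = σ := by
  classical
  -- basic facts
  have hF : ∀ w, σ (w, false) = (w, false) ∨ σ (w, false) = (w, true) := by
    intro w
    rcases hσ (w, false) with h | h | h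
    · left; exact h
    · right
      obtain ⟨-, h2, h3⟩ := h
      exact Prod.ext h3.symm h2
    · simp at h
  have hT : ∀ w, σ (w, true) = (w, true) ∨ ∃ w', σ (w, true) = (w', false) ∧ (R w w' ∨ (w = w' ∧ A w)) := by
    intro w
    rcases hσ (w, true) with h | h | h
    · left; exact h
    · simp at h
    · right
      obtain ⟨-, h2, h3⟩ := h
      exact ⟨(σ (w, true)).1, Prod.ext rfl h2, h3⟩
  -- if (w,true) is fixed then (w,false) is fixed
  have hTF : ∀ w, σ (w, true) = (w, true) → σ (w, false) = (w, false) := by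
    intro w h
    rcases hF w with h' | h'
    · exact h'
    · have := σ.injective (h'.trans h.symm)
      simp at this
  -- if (w,true) is not fixed then (w,false) goes to (w,true)
  have hTF' : ∀ w, σ (w, true) ≠ (w, true) → σ (w, false) = (w, true) := by
    intro w h
    obtain ⟨⟨y, c⟩, hy⟩ := σ.surjective (w, true)
    cases c
    · rcases hF y with h' | h'
      · rw [h'] at hy; simp at hy
      · rw [h'] at hy
        have : y = w := by simpa using hy
        subst this; exact h'
    · rcases hT y with h' | ⟨w', h', -⟩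
      · rw [h'] at hy
        have : y = w := by simpa using hy
        subst this; exact absurd h' h
      · rw [h'] at hy; simp at hy
  let p : W → W := fun w => (σ (w, true)).1
  have hpinj : Function.Injective p := by
    intro x y hxy
    by_contra hne
    have hne' : σ (x, true) ≠ σ (y, true) := by
      intro h; have := σ.injective h; simp at this; exact hne this
    rcases hT x with hx | ⟨x', hx, -⟩ <;> rcases hT y with hy | ⟨y', hy, -⟩
    · simp only [p, hx, hy] at hxy; exact hne hxy
    · simp only [p, hx, hy] at hxy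
      subst hxy
      have := hTF x hx
      have := σ.injective (this.trans hy.symm)
      simp at this
    · simp only [p, hx, hy] at hxy
      subst hxy
      have := hTF x' hy
      have := σ.injective (this.trans hx.symm)
      simp at this
    · simp only [p, hx, hy] at hxy
      subst hxy
      exact hne' (hx.trans hy.symm)
  let π : Equiv.Perm W := Equiv.ofBijective p (Finite.injective_iff_bijective.mp hpinj)
  have hπ : ∀ w, π w = (σ (w, true)).1 := fun w => rfl
  let B : Finset W := Finset.univ.filter (fun w => σ (w, true) = (w, false))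
  have hB : ∀ w ∈ B, A w ∧ π w = w := by
    intro w hw
    have hw' : σ (w, true) = (w, false) := by simpa [B] using hw
    refine ⟨?_, by rw [hπ, hw']⟩
    rcases hT w with h | ⟨w', h, h2⟩
    · rw [hw'] at h; simp at h
    · rw [hw'] at h
      have : w = w' := by simpa using h
      subst this
      rcases h2 with h2 | h2
      · exact absurd h2 (hR w)
      · exact h2.2
  refine ⟨π, B, hB, ?_, ?_⟩
  · intro w
    rcases hT w with h | ⟨w', h, h2⟩
    · left; rw [hπ, h]
    · rcases h2 with h2 | h2
      · right; rw [hπ, h]; exact h2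
      · left; rw [hπ, h]; exact h2.1.symm
  · ext1 ⟨x, b⟩
    rw [gperm_apply]
    unfold gfun
    by_cases hx : (π x ≠ x ∨ x ∈ B)
    · rw [if_pos hx]
      have hnf : σ (x, true) ≠ (x, true) := by
        intro h
        rcases hx with h' | h'
        · apply h'; rw [hπ, h]
        · have : σ (x, true) = (x, false) := by simpa [B] using h'
          rw [this] at h; simp at h
      cases b
      · simp only [Bool.false_eq_true, if_false]
        exact (hTF' x hnf).symm
      · simp only [if_true]
        rcases hT x with h | ⟨w', h, -⟩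
        · exact absurd h hnf
        · rw [hπ, h]
    · rw [if_neg hx]
      push Not at hx
      have hfix : σ (x, true) = (x, true) := by
        rcases hT x with h | ⟨w', h, -⟩
        · exact h
        · have h1 : w' = x := by
            have := hx.1; rw [hπ, h] at this; exact this
          subst h1
          exact absurd (by simpa [B] using h) hx.2
      cases b
      · exact (hTF x hfix).symm
      · exact hfix.symm

lemma gperm_inj {π π' : Equiv.Perm W} {B B' : Finset W} (hB : ∀ w ∈ B, π w = w)
    (hB' : ∀ w ∈ B', π' w = w) (h : gperm π B hB = gperm π' B' hB') : π = π' ∧ B = B' := by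
  classical
  have h1 : ∀ x, gfun π B x = gfun π' B' x := fun x => by
    rw [← gperm_apply π B hB, ← gperm_apply π' B' hB', h]
  have h2 : ∀ w, π w = π' w := by
    intro w
    have := h1 (w, true)
    unfold gfun at this
    by_cases hx : (π w ≠ w ∨ w ∈ B) <;> by_cases hy : (π' w ≠ w ∨ w ∈ B')
    · simpa [if_pos hx, if_pos hy] using this
    · simp [if_pos hx, if_neg hy] at this
    · simp [if_neg hx, if_pos hy] at this
    · push Not at hx hy; rw [hx.1, hy.1]
  refine ⟨Equiv.ext h2, ?_⟩
  ext w
  have := h1 (w, true)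
  unfold gfun at this
  by_cases hx : (π w ≠ w ∨ w ∈ B) <;> by_cases hy : (π' w ≠ w ∨ w ∈ B')
  · by_cases hw : π w = w
    · have hw' : π' w = w := by rw [← h2 w]; exact hw
      constructor
      · intro _; exact hy.resolve_left (fun h => h hw')
      · intro _; exact hx.resolve_left (fun h => h hw)
    · have hw' : π' w ≠ w := by rw [← h2 w]; exact hw
      constructor
      · intro hh; exact absurd (hB w hh) hw
      · intro hh; exact absurd (hB' w hh) hw'
  · simp [if_pos hx, if_neg hy] at this
  · simp [if_neg hx, if_pos hy] at this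
  · push Not at hx hy
    constructor
    · intro hh; exact absurd hh hx.2
    · intro hh; exact absurd hh hy.2

/-- permutations on the split digraph -/
noncomputable def permEquiv (hR : ∀ w, ¬ R w w) :
    {x : Equiv.Perm W × Finset W // okPerm R x.1 ∧ ∀ w ∈ x.2, A w ∧ x.1 w = w} ≃
    {σ : Equiv.Perm (W × Bool) // ∀ v, σ v = v ∨ (splitG R A).Adj v (σ v)} :=
  Equiv.ofBijective
    (fun x => ⟨gperm x.1.1 x.1.2 (fun w hw => (x.2.2 w hw).2),
      gperm_ok R A x.1.1 x.1.2 x.2.2 x.2.1⟩) (by
    constructor
    · rintro ⟨⟨π, B⟩, h⟩ ⟨⟨π', B'⟩, h'⟩ he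
      simp only [Subtype.mk.injEq] at he
      have := gperm_inj _ _ he
      simp [this.1, this.2]
    · rintro ⟨σ, hσ⟩
      obtain ⟨π, B, hB, hok, he⟩ := exists_of_ok R A hR σ hσ
      exact ⟨⟨⟨π, B⟩, hok, hB⟩, by simp [he]⟩)

lemma der_iff (π : Equiv.Perm W) (B : Finset W) (hB : ∀ w ∈ B, A w ∧ π w = w)
    (hπ : okPerm R π) :
    (∀ v, (splitG R A).Adj v (gperm π B (fun w hw => (hB w hw).2) v)) ↔
      (∀ w, w ∈ B ↔ π w = w) := by
  classical
  constructor
  · intro h w
    refine ⟨fun hw => (hB w hw).2, fun hw => ?_⟩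
    by_contra hnot
    have h1 := h (w, true)
    rw [gperm_apply] at h1
    unfold gfun at h1
    rw [if_neg (by simp [hw, hnot])] at h1
    exact split_irrefl R A _ h1
  · intro h v
    rcases gperm_ok R A π B hB hπ v with h1 | h1
    · exfalso
      rw [gperm_apply] at h1
      unfold gfun at h1
      have hact : (π v.1 ≠ v.1 ∨ v.1 ∈ B) := by
        by_cases hw : π v.1 = v.1
        · right; exact (h _).2 hw
        · left; exact hw
      rw [if_pos hact] at h1
      obtain ⟨x, b⟩ := v
      cases b <;> simp at h1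
    · exact h1

/-- derangements on the split digraph -/
noncomputable def derEquiv (hR : ∀ w, ¬ R w w) :
    {π : Equiv.Perm W // okPerm R π ∧ ∀ w, π w = w → A w} ≃
    {σ : Equiv.Perm (W × Bool) // ∀ v, (splitG R A).Adj v (σ v)} := by
  classical
  refine Equiv.ofBijective
    (fun x => ⟨gperm x.1 (Finset.univ.filter (fun w => x.1 w = w)) (by simp), ?_⟩) ?_
  · exact (der_iff R A x.1 _ (by
      intro w hw
      have : x.1 w = w := by simpa using hw
      exact ⟨x.2.2 w this, this⟩) x.2.1).2 (by simp)
  · constructor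
    · rintro ⟨π, h⟩ ⟨π', h'⟩ he
      simp only [Subtype.mk.injEq] at he
      have := gperm_inj _ _ he
      simp [this.1]
    · rintro ⟨σ, hσ⟩
      obtain ⟨π, B, hB, hok, he⟩ := exists_of_ok R A hR σ (fun v => Or.inr (hσ v))
      have h2 : ∀ w, w ∈ B ↔ π w = w := (der_iff R A π B hB hok).1 (by rw [he]; exact hσ)
      have h3 : B = Finset.univ.filter (fun w => π w = w) := by
        ext w; simp [h2 w]
      refine ⟨⟨π, hok, fun w hw => (hB w ((h2 w).2 hw)).1⟩, ?_⟩
      simp only [Subtype.mk.injEq]
      subst h3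
      exact he

end gadget


section layered

variable {L k : ℕ} [NeZero L]

/-- consecutive layers -/
def layR (L k : ℕ) [NeZero L] (w w' : Fin L × Fin k) : Prop := w'.1 = w.1 + 1

/-- the moved points in each layer -/
def movedSet (π : Equiv.Perm (Fin L × Fin k)) (j : Fin L) : Finset (Fin k) :=
  Finset.univ.filter (fun i => π (j, i) ≠ (j, i))

def lfun (M : Fin L → Finset (Fin k)) (e : ∀ j, M j ≃ M (j + 1)) (w : Fin L × Fin k) :
    Fin L × Fin k :=
  if h : w.2 ∈ M w.1 then (w.1 + 1, (e w.1 ⟨w.2, h⟩ : Fin k)) else w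

lemma lfun_inj (M : Fin L → Finset (Fin k)) (e : ∀ j, M j ≃ M (j + 1)) :
    Function.Injective (lfun M e) := by
  rintro ⟨j, i⟩ ⟨j', i'⟩ h
  unfold lfun at h
  by_cases h1 : i ∈ M j <;> by_cases h2 : i' ∈ M j'
  · simp only [h1, h2, dif_pos, Prod.mk.injEq, add_left_inj] at h
    obtain ⟨rfl, h⟩ := h
    have h3 : e j ⟨i, h1⟩ = e j ⟨i', h2⟩ := Subtype.ext h
    have h4 := (e j).injective h3
    simp only [Subtype.mk.injEq] at h4
    rw [h4]
  · simp only [h1, h2, dif_pos, dif_neg, not_false_iff, Prod.mk.injEq] at h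
    obtain ⟨rfl, h⟩ := h
    exact absurd (h ▸ (e j ⟨i, h1⟩).2) h2
  · simp only [h1, h2, dif_pos, dif_neg, not_false_iff, Prod.mk.injEq] at h
    obtain ⟨rfl, h⟩ := h
    exact absurd (h.symm ▸ (e j' ⟨i', h2⟩).2) h1
  · simpa only [h1, h2, dif_neg, not_false_iff] using h

noncomputable def lperm (M : Fin L → Finset (Fin k)) (e : ∀ j, M j ≃ M (j + 1)) :
    Equiv.Perm (Fin L × Fin k) :=
  Equiv.ofBijective (lfun M e) (Finite.injective_iff_bijective.mp (lfun_inj M e))

lemma lperm_apply (M : Fin L → Finset (Fin k)) (e : ∀ j, M j ≃ M (j + 1)) (w) :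
    lperm M e w = lfun M e w := rfl

lemma succ_ne (hL : 2 ≤ L) (j : Fin L) : j + 1 ≠ j := by
  intro h
  have h1 : (1 : Fin L) = 0 := by
    have := congrArg (fun x => x - j) h
    simpa using this
  have h2 : ((1 : Fin L) : ℕ) = 0 := by rw [h1]; rfl
  rw [Fin.val_one'] at h2
  rw [Nat.mod_eq_of_lt (by omega)] at h2
  omega

lemma movedSet_lperm (hL : 2 ≤ L) (M : Fin L → Finset (Fin k)) (e : ∀ j, M j ≃ M (j + 1)) :
    movedSet (lperm M e) = M := by
  funext j
  ext i
  have key : i ∈ movedSet (lperm M e) j ↔ lfun M e (j, i) ≠ (j, i) := by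
    unfold movedSet
    rw [Finset.mem_filter, lperm_apply]
    simp only [Finset.mem_univ, true_and]
  rw [key]
  unfold lfun
  by_cases h : i ∈ M j
  · simp only [h, dif_pos, iff_true]
    intro h'
    exact succ_ne hL j (congrArg Prod.fst h')
  · simp [h]

lemma okPerm_lperm (M : Fin L → Finset (Fin k)) (e : ∀ j, M j ≃ M (j + 1)) :
    okPerm (layR L k) (lperm M e) := by
  rintro ⟨j, i⟩
  rw [lperm_apply]
  unfold lfun layR
  by_cases h : i ∈ M j
  · right; simp [h]
  · left; simp [h]

/-- permutations with prescribed moved points in each layer -/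
noncomputable def layEquiv (hL : 2 ≤ L) (M : Fin L → Finset (Fin k)) :
    (∀ j, M j ≃ M (j + 1)) ≃
      {π : Equiv.Perm (Fin L × Fin k) // okPerm (layR L k) π ∧ movedSet π = M} := by
  refine Equiv.ofBijective (fun e => ⟨lperm M e, okPerm_lperm M e, movedSet_lperm hL M e⟩) ?_
  constructor
  · intro e e' h
    simp only [Subtype.mk.injEq] at h
    funext j
    ext1 ⟨i, hi⟩
    have h1 : lfun M e (j, i) = lfun M e' (j, i) := by
      rw [← lperm_apply, ← lperm_apply, h]
    unfold lfun at h1
    simp only [hi, dif_pos, Prod.mk.injEq, true_and] at h1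
    exact Subtype.ext h1
  · rintro ⟨π, hok, hM⟩
    subst hM
    have hmem : ∀ j i, i ∈ movedSet π j ↔ π (j, i) ≠ (j, i) := by
      intro j i; simp [movedSet]
    have hstep : ∀ j i, i ∈ movedSet π j → (π (j, i)).1 = j + 1 := by
      intro j i hi
      exact (hok (j, i)).resolve_left ((hmem j i).1 hi)
    have hmaps : ∀ j (i : movedSet π j), (π (j, i)).2 ∈ movedSet π (j + 1) := by
      rintro j ⟨i, hi⟩
      rw [hmem]
      have h1 : π (j, i) = (j + 1, (π (j, i)).2) := Prod.ext (hstep j i hi) rfl
      intro h2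
      rw [← h1] at h2
      exact (hmem j i).1 hi (π.injective h2)
    let e : ∀ j, movedSet π j ≃ movedSet π (j + 1) := fun j =>
      Equiv.ofBijective (fun i => ⟨(π (j, i)).2, hmaps j i⟩) (by
        constructor
        · rintro ⟨i, hi⟩ ⟨i', hi'⟩ h
          simp only [Subtype.mk.injEq] at h
          have h1 : π (j, i) = π (j, i') :=
            Prod.ext ((hstep j i hi).trans (hstep j i' hi').symm) h
          have := π.injective h1
          simpa using this
        · rintro ⟨i', hi'⟩
          obtain ⟨⟨j0, i0⟩, h0⟩ := π.surjective (j + 1, i')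
          have hne : π (j0, i0) ≠ (j0, i0) := by
            intro h
            rw [h] at h0
            rw [h0] at h
            exact (hmem _ _).1 hi' h
          have h1 : j0 + 1 = j + 1 := by
            rw [← hstep j0 i0 ((hmem _ _).2 hne), h0]
          have h2 : j0 = j := by simpa using h1
          subst h2
          exact ⟨⟨i0, (hmem _ _).2 hne⟩, Subtype.ext (by simp [h0])⟩)
    refine ⟨e, ?_⟩
    simp only [Subtype.mk.injEq]
    ext1 ⟨j, i⟩
    rw [lperm_apply]
    unfold lfun
    by_cases h : i ∈ movedSet π j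
    · simp only [h, dif_pos]
      exact Prod.ext (hstep j i h).symm rfl
    · simp only [h, dif_neg, not_false_iff]
      rw [hmem] at h
      push Not at h
      exact h.symm

lemma card_equiv_finset (S T : Finset (Fin k)) :
    Nat.card (S ≃ T) = if S.card = T.card then (S.card).factorial else 0 := by
  classical
  rw [Nat.card_eq_fintype_card]
  split_ifs with h
  · have e : S ≃ T := Finset.equivOfCardEq h
    rw [Fintype.card_equiv e]
    simp
  · rw [Fintype.card_eq_zero_iff]
    constructor
    intro e
    apply h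
    have := Fintype.card_congr e
    simpa using this

lemma card_layers (hL : 2 ≤ L) (M : Fin L → Finset (Fin k)) :
    Nat.card {π : Equiv.Perm (Fin L × Fin k) // okPerm (layR L k) π ∧ movedSet π = M} =
      if ∀ j, (M j).card = (M 0).card then ((M 0).card.factorial) ^ L else 0 := by
  classical
  rw [← Nat.card_congr (layEquiv hL M), Nat.card_pi]
  simp only [card_equiv_finset]
  split_ifs with h
  · have : ∀ j : Fin L, (if (M j).card = (M (j + 1)).card then ((M j).card).factorial else 0) =
        (M 0).card.factorial := by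
      intro j
      rw [h j, h (j + 1)]; simp
    rw [Finset.prod_congr rfl (fun j _ => this j)]
    simp
  · -- some consecutive pair differs
    by_contra hne
    apply h
    have hall : ∀ j : Fin L, (M j).card = (M (j + 1)).card := by
      intro j
      by_contra hj
      apply hne
      apply Finset.prod_eq_zero (Finset.mem_univ j)
      simp [hj]
    intro j
    have : ∀ n : ℕ, (M (Fin.ofNat L n)).card = (M 0).card := by
      intro n
      induction n with
      | zero => rfl
      | succ n ih =>
        rw [← ih, hall (Fin.ofNat L n)]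
        congr 2
        apply Fin.ext
        simp [Fin.val_add]
    have h1 := this j.val
    rw [show Fin.ofNat L j.val = j from Fin.ext (by simp)] at h1
    exact h1

end layered


section counting

variable {L q : ℕ} [NeZero L]

/-- the marked vertices: vertex `0` in each of the first `n` layers -/
def mark (L q n : ℕ) (w : Fin L × Fin (q + 1)) : Prop := w.1.val < n ∧ w.2 = 0

open Classical in
lemma card_marked (n : ℕ) (M : Fin L → Finset (Fin (q + 1))) :
    Nat.card {B : Finset (Fin L × Fin (q + 1)) // ∀ w ∈ B, mark L q n w ∧ w.2 ∉ M w.1} =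
      ∏ j : Fin L, (if j.val < n ∧ (0 : Fin (q + 1)) ∉ M j then 2 else 1) := by
  set T : Finset (Fin L × Fin (q + 1)) :=
    Finset.univ.filter (fun w => mark L q n w ∧ w.2 ∉ M w.1) with hT
  have h1 : Nat.card {B : Finset (Fin L × Fin (q + 1)) // ∀ w ∈ B, mark L q n w ∧ w.2 ∉ M w.1} =
      T.powerset.card := by
    rw [Nat.card_eq_fintype_card, Fintype.card_subtype]
    congr 1
    ext B
    simp only [Finset.mem_filter, Finset.mem_univ, true_and, Finset.mem_powerset, hT]
    constructor
    · intro h w hw
      simpa using h w hw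
    · intro h w hw
      simpa using h hw
  rw [h1, Finset.card_powerset]
  have hmemT : ∀ w, w ∈ T ↔ (w.1.val < n ∧ w.2 = 0) ∧ w.2 ∉ M w.1 := by
    intro w
    rw [hT, Finset.mem_filter]
    simp [mark]
  have h2 : T.card = (Finset.univ.filter
      (fun j : Fin L => j.val < n ∧ (0 : Fin (q + 1)) ∉ M j)).card := by
    apply Finset.card_bij (fun w _ => w.1)
    · intro w hw
      rw [hmemT] at hw
      rw [Finset.mem_filter]
      refine ⟨Finset.mem_univ _, hw.1.1, ?_⟩
      rw [← hw.1.2]
      exact hw.2
    · intro w hw w' hw' h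
      rw [hmemT] at hw hw'
      exact Prod.ext h (hw.1.2.trans hw'.1.2.symm)
    · intro j hj
      rw [Finset.mem_filter] at hj
      exact ⟨(j, 0), (hmemT _).2 ⟨⟨hj.2.1, rfl⟩, hj.2.2⟩, rfl⟩
  rw [h2, Finset.prod_ite]
  simp

lemma numPerm_eq_sum (hL : 2 ≤ L) (n : ℕ) :
    numPerm (splitG (layR L (q + 1)) (mark L q n)) =
      ∑ M : Fin L → Finset (Fin (q + 1)),
        (if ∀ j, (M j).card = (M 0).card then ((M 0).card.factorial) ^ L else 0) *
        ∏ j : Fin L, (if j.val < n ∧ (0 : Fin (q + 1)) ∉ M j then 2 else 1) := by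
  classical
  have hR : ∀ w, ¬ layR L (q + 1) w w := by
    intro w h
    exact succ_ne hL w.1 h.symm
  unfold numPerm
  rw [← Nat.card_congr (permEquiv (layR L (q + 1)) (mark L q n) hR)]
  rw [← Nat.card_congr (Equiv.sigmaFiberEquiv (fun x : {x : Equiv.Perm (Fin L × Fin (q + 1)) ×
    Finset (Fin L × Fin (q + 1)) // okPerm (layR L (q + 1)) x.1 ∧
      ∀ w ∈ x.2, mark L q n w ∧ x.1 w = w} => movedSet x.1.1))]
  rw [Nat.card_sigma]
  apply Finset.sum_congr rfl
  intro M _
  rw [← card_layers hL M, ← card_marked n M, ← Nat.card_prod]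
  refine Nat.card_congr ?_
  have hfix : ∀ (π : Equiv.Perm (Fin L × Fin (q + 1))) (w : Fin L × Fin (q + 1)),
      w.2 ∉ movedSet π w.1 ↔ π w = w := by
    intro π w
    unfold movedSet
    rw [Finset.mem_filter]
    simp
  exact
    { toFun := fun x => (⟨x.1.1.1, x.1.2.1, x.2⟩, ⟨x.1.1.2, fun w hw =>
        ⟨(x.1.2.2 w hw).1, by rw [← x.2]; exact (hfix _ _).2 (x.1.2.2 w hw).2⟩⟩)
      invFun := fun y => ⟨⟨(y.1.1, y.2.1), y.1.2.1, fun w hw =>
        ⟨(y.2.2 w hw).1, (hfix _ _).1 (by rw [y.1.2.2]; exact (y.2.2 w hw).2)⟩⟩, y.1.2.2⟩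
      left_inv := fun x => by simp
      right_inv := fun y => by simp }

lemma sum_powersetCard (n c : ℕ) (j : Fin L) :
    ∑ S ∈ (Finset.univ : Finset (Fin (q + 1))).powersetCard c,
      (if j.val < n ∧ (0 : Fin (q + 1)) ∉ S then 2 else 1) =
      if j.val < n then (q + 1).choose c + q.choose c else (q + 1).choose c := by
  by_cases hj : j.val < n
  · simp only [hj, true_and, if_true]
    have h1 : ∀ S : Finset (Fin (q + 1)), (if (0 : Fin (q + 1)) ∉ S then 2 else 1) =
        1 + (if (0 : Fin (q + 1)) ∉ S then 1 else 0) := by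
      intro S; split_ifs <;> rfl
    simp only [h1]
    rw [Finset.sum_add_distrib, ← Finset.card_filter]
    have h2 : ((Finset.univ : Finset (Fin (q + 1))).powersetCard c).filter
        (fun S => (0 : Fin (q + 1)) ∉ S) = (Finset.univ.erase (0 : Fin (q + 1))).powersetCard c := by
      ext S
      simp only [Finset.mem_filter, Finset.mem_powersetCard]
      constructor
      · rintro ⟨⟨_, hc⟩, h0⟩
        refine ⟨?_, hc⟩
        intro x hx
        simp only [Finset.mem_erase, Finset.mem_univ, and_true]
        rintro rfl; exact h0 hx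
      · rintro ⟨hs, hc⟩
        refine ⟨⟨Finset.subset_univ _, hc⟩, ?_⟩
        intro h0
        simpa using hs h0
    rw [h2]
    simp
  · simp [hj]

lemma numPerm_formula (hL : 2 ≤ L) (n : ℕ) (hn : n ≤ L) :
    numPerm (splitG (layR L (q + 1)) (mark L q n)) =
      ∑ c ∈ Finset.range (q + 2), (c.factorial) ^ L * (((q + 1).choose c + q.choose c) ^ n *
        ((q + 1).choose c) ^ (L - n)) := by
  classical
  rw [numPerm_eq_sum hL n]
  have h1 : ∀ M : Fin L → Finset (Fin (q + 1)),
      (if ∀ j, (M j).card = (M 0).card then ((M 0).card.factorial) ^ L else 0) *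
        ∏ j : Fin L, (if j.val < n ∧ (0 : Fin (q + 1)) ∉ M j then 2 else 1) =
      ∑ c ∈ Finset.range (q + 2), (if ∀ j, (M j).card = c then (c.factorial) ^ L *
        ∏ j : Fin L, (if j.val < n ∧ (0 : Fin (q + 1)) ∉ M j then 2 else 1) else 0) := by
    intro M
    by_cases h : ∀ j, (M j).card = (M 0).card
    · rw [if_pos h, Finset.sum_eq_single (M 0).card]
      · rw [if_pos h]
      · intro c _ hc
        rw [if_neg]
        intro h'
        exact hc (h' 0).symm
      · intro h'
        exfalso
        apply h'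
        rw [Finset.mem_range]
        have := Finset.card_le_univ (M 0)
        simp at this
        omega
    · rw [if_neg h, zero_mul]
      symm
      apply Finset.sum_eq_zero
      intro c _
      rw [if_neg]
      intro h'
      apply h
      intro j
      rw [h' j, h' 0]
  rw [Finset.sum_congr rfl (fun M _ => h1 M), Finset.sum_comm]
  apply Finset.sum_congr rfl
  intro c _
  rw [← Finset.sum_filter]
  have h2 : (Finset.univ.filter (fun M : Fin L → Finset (Fin (q + 1)) => ∀ j, (M j).card = c)) =
      Fintype.piFinset (fun _ => (Finset.univ : Finset (Fin (q + 1))).powersetCard c) := by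
    ext M
    simp [Fintype.mem_piFinset, Finset.mem_powersetCard]
  rw [h2, ← Finset.mul_sum]
  congr 1
  rw [← Finset.prod_univ_sum (fun _ : Fin L => (Finset.univ : Finset (Fin (q + 1))).powersetCard c)
    (fun (j : Fin L) (S : Finset (Fin (q + 1))) =>
      (if j.val < n ∧ (0 : Fin (q + 1)) ∉ S then 2 else 1))]
  rw [Finset.prod_congr rfl (fun j _ => sum_powersetCard n c j)]
  rw [Finset.prod_ite]
  simp only [Finset.prod_const]
  have h3 : (Finset.univ.filter (fun j : Fin L => j.val < n)).card = n := by
    rw [Fin.card_filter_val_lt]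
    exact min_eq_right hn
  have h4 : (Finset.univ.filter (fun j : Fin L => ¬ j.val < n)).card = L - n := by
    have := Finset.card_filter_add_card_filter_not (s := (Finset.univ : Finset (Fin L)))
      (fun j : Fin L => j.val < n)
    rw [h3] at this
    simp only [Finset.card_univ, Fintype.card_fin] at this
    omega
  rw [h3, h4]

lemma numDer_formula (hL : 2 ≤ L) (n : ℕ) (hn : n < L) :
    numDer (splitG (layR L (q + 1)) (mark L q n)) = ((q + 1).factorial) ^ L := by
  classical
  have hR : ∀ w, ¬ layR L (q + 1) w w := by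
    intro w h
    exact succ_ne hL w.1 h.symm
  unfold numDer
  rw [← Nat.card_congr (derEquiv (layR L (q + 1)) (mark L q n) hR)]
  have hcard := card_layers hL (fun _ : Fin L => (Finset.univ : Finset (Fin (q + 1))))
  simp only [Finset.card_univ, Fintype.card_fin, implies_true, if_true] at hcard
  rw [← hcard]
  refine Nat.card_congr (Equiv.subtypeEquivRight ?_)
  intro π
  have hfix : ∀ (w : Fin L × Fin (q + 1)),
      w.2 ∉ movedSet π w.1 ↔ π w = w := by
    intro w
    unfold movedSet
    rw [Finset.mem_filter]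
    simp
  constructor
  · rintro ⟨hok, h⟩
    refine ⟨hok, ?_⟩
    have hne : Nat.card {π' : Equiv.Perm (Fin L × Fin (q + 1)) //
        okPerm (layR L (q + 1)) π' ∧ movedSet π' = movedSet π} ≠ 0 := by
      have : Nonempty {π' : Equiv.Perm (Fin L × Fin (q + 1)) //
        okPerm (layR L (q + 1)) π' ∧ movedSet π' = movedSet π} := ⟨⟨π, hok, rfl⟩⟩
      exact Nat.card_pos.ne'
    rw [card_layers hL] at hne
    have hall : ∀ j, (movedSet π j).card = (movedSet π 0).card := by
      by_contra hc
      rw [if_neg hc] at hne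
      exact hne rfl
    have hlast : movedSet π ⟨n, hn⟩ = Finset.univ := by
      rw [Finset.eq_univ_iff_forall]
      intro i
      by_contra hi
      have := h (⟨n, hn⟩, i) ((hfix (⟨n, hn⟩, i)).1 hi)
      exact lt_irrefl _ this.1
    funext j
    apply Finset.eq_univ_of_card
    rw [hall j, ← hall ⟨n, hn⟩, hlast]
    simp
  · rintro ⟨hok, h⟩
    refine ⟨hok, ?_⟩
    intro w hw
    exfalso
    have := (hfix w).2 hw
    rw [h] at this
    simp at this

end counting


section analysis

open Filter Topology

/-- the ratio `p / d` of the layered graph with `L` layers -/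
noncomputable def ratioF (q n L : ℕ) : ℝ :=
  ∑ c ∈ Finset.range (q + 2), (1 / ((q + 1 - c).factorial : ℝ)) ^ L *
    (1 + (q.choose c : ℝ) / ((q + 1).choose c : ℝ)) ^ n

lemma numPerm_real {L : ℕ} [NeZero L] (q n : ℕ) (hL : 2 ≤ L) (hn : n ≤ L) :
    (numPerm (splitG (layR L (q + 1)) (mark L q n)) : ℝ) =
      ((q + 1).factorial : ℝ) ^ L * ratioF q n L := by
  rw [numPerm_formula hL n hn]
  push_cast
  unfold ratioF
  rw [Finset.mul_sum]
  apply Finset.sum_congr rfl
  intro c hc
  have hc' : c ≤ q + 1 := by
    rw [Finset.mem_range] at hc; omega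
  have h1 : ((q + 1).choose c : ℝ) * (c.factorial : ℝ) * ((q + 1 - c).factorial : ℝ) =
      ((q + 1).factorial : ℝ) := by
    exact_mod_cast Nat.choose_mul_factorial_mul_factorial hc'
  have h2 : ((q + 1).choose c : ℝ) ≠ 0 := by
    exact_mod_cast (Nat.choose_pos hc').ne'
  have h3 : ((q + 1 - c).factorial : ℝ) ≠ 0 := by
    exact_mod_cast (Nat.factorial_pos _).ne'
  rw [← h1]
  have h4 : ((q + 1).choose c : ℝ) ^ L =
      ((q + 1).choose c : ℝ) ^ (L - n) * ((q + 1).choose c : ℝ) ^ n := by
    rw [← pow_add]; congr 1; omega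
  have h5 : (1 + (q.choose c : ℝ) / ((q + 1).choose c : ℝ)) ^ n =
      (((q + 1).choose c : ℝ) + (q.choose c : ℝ)) ^ n / ((q + 1).choose c : ℝ) ^ n := by
    rw [← div_pow]; congr 1; field_simp
  rw [h5, mul_pow, mul_pow, h4, one_div, inv_pow]
  field_simp

lemma tendsto_ratioF (q n : ℕ) :
    Tendsto (fun L : ℕ => ratioF q n L) atTop (𝓝 (1 + (1 + 1 / ((q : ℝ) + 1)) ^ n)) := by
  have hsum : ∀ L, ratioF q n L = (∑ c ∈ Finset.range q, (1 / ((q + 1 - c).factorial : ℝ)) ^ L *
    (1 + (q.choose c : ℝ) / ((q + 1).choose c : ℝ)) ^ n) + (1 + 1 / ((q : ℝ) + 1)) ^ n + 1 := by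
    intro L
    unfold ratioF
    rw [Finset.sum_range_succ, Finset.sum_range_succ]
    simp
  have hzero : Tendsto (fun L : ℕ => ∑ c ∈ Finset.range q,
      (1 / ((q + 1 - c).factorial : ℝ)) ^ L *
      (1 + (q.choose c : ℝ) / ((q + 1).choose c : ℝ)) ^ n) atTop (𝓝 0) := by
    have : Tendsto (fun L : ℕ => ∑ c ∈ Finset.range q,
      (1 / ((q + 1 - c).factorial : ℝ)) ^ L *
      (1 + (q.choose c : ℝ) / ((q + 1).choose c : ℝ)) ^ n) atTop
        (𝓝 (∑ c ∈ Finset.range q, (0 : ℝ) * (1 + (q.choose c : ℝ) / ((q + 1).choose c : ℝ)) ^ n)) := by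
      apply tendsto_finsetSum
      intro c hc
      apply Tendsto.mul_const
      rw [Finset.mem_range] at hc
      apply tendsto_pow_atTop_nhds_zero_of_lt_one
      · positivity
      · have h2 : 2 ≤ (q + 1 - c).factorial := by
          calc 2 = Nat.factorial 2 := rfl
            _ ≤ _ := Nat.factorial_le (by omega)
        have h3 : (2 : ℝ) ≤ ((q + 1 - c).factorial : ℝ) := by exact_mod_cast h2
        rw [div_lt_one (by linarith)]
        linarith
    simpa using this
  simp only [hsum]
  have h := (hzero.add_const ((1 + 1 / ((q : ℝ) + 1)) ^ n)).add_const 1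
  rw [zero_add] at h
  rw [add_comm (1 : ℝ) ((1 + 1 / ((q : ℝ) + 1)) ^ n)]
  exact h

lemma exists_target (α β : ℝ) (hα : 1 ≤ α) (hβ : α < β) :
    ∃ q n : ℕ, α < (1 + 1 / ((q : ℝ) + 1)) ^ n ∧ (1 + 1 / ((q : ℝ) + 1)) ^ n < β := by
  have hpos : 0 < β / α - 1 := by
    rw [sub_pos, one_lt_div (by linarith)]
    exact hβ
  obtain ⟨q, hq⟩ := exists_nat_one_div_lt hpos
  have hr : 1 < 1 + 1 / ((q : ℝ) + 1) := by
    have : 0 < 1 / ((q : ℝ) + 1) := by positivity
    linarith
  obtain ⟨n, hn1, hn2⟩ := exists_nat_pow_near hα hr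
  refine ⟨q, n + 1, hn2, ?_⟩
  rw [pow_succ]
  have h1 : 1 + 1 / ((q : ℝ) + 1) < β / α := by linarith
  calc (1 + 1 / ((q : ℝ) + 1)) ^ n * (1 + 1 / ((q : ℝ) + 1))
      ≤ α * (1 + 1 / ((q : ℝ) + 1)) := by
        apply mul_le_mul_of_nonneg_right hn1; linarith
    _ < α * (β / α) := by
        apply mul_lt_mul_of_pos_left h1; linarith
    _ = β := by field_simp

end analysis

/-- The set of the ratios `(d/p)_G` of digraphs is dense in `[0, 1/2]`. -/
theorem result (a b : ℝ) (ha : 0 ≤ a) (hab : a < b) (hb : b ≤ 1 / 2) :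
    ∃ (V : Type) (_ : Fintype V) (_ : Nonempty V) (G : Digraph V), (∀ v, ¬ G.Adj v v) ∧
      a < (numDer G : ℝ) / (numPerm G : ℝ) ∧ (numDer G : ℝ) / (numPerm G : ℝ) < b := by
  -- replace `a` by a positive number
  obtain ⟨a', ha', haa', hab'⟩ : ∃ a' : ℝ, 0 < a' ∧ a ≤ a' ∧ a' < b := by
    refine ⟨(a + b) / 2, by linarith, by linarith, by linarith⟩
  have hbpos : 0 < b := by linarith
  have hα : (1 : ℝ) ≤ 1 / b - 1 := by
    have : 2 ≤ 1 / b := by
      rw [le_div_iff₀ hbpos]; linarith
    linarith
  have hαβ : 1 / b - 1 < 1 / a' - 1 := by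
    have : 1 / b < 1 / a' := one_div_lt_one_div_of_lt ha' hab'
    linarith
  obtain ⟨q, n, h1, h2⟩ := exists_target _ _ hα hαβ
  have hlim := tendsto_ratioF q n
  have hev1 : ∀ᶠ L in Filter.atTop, 1 / b < ratioF q n L :=
    hlim.eventually_const_lt (by linarith)
  have hev2 : ∀ᶠ L in Filter.atTop, ratioF q n L < 1 / a' :=
    hlim.eventually_lt_const (by linarith)
  obtain ⟨L, hL1, hL2, hL3, hL4⟩ := (hev1.and (hev2.and
    ((Filter.eventually_ge_atTop 2).and (Filter.eventually_gt_atTop n)))).exists
  have : NeZero L := ⟨by omega⟩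
  refine ⟨(Fin L × Fin (q + 1)) × Bool, inferInstance, inferInstance,
    splitG (layR L (q + 1)) (mark L q n), split_irrefl _ _, ?_⟩
  rw [numDer_formula hL3 n hL4, numPerm_real q n hL3 hL4.le]
  push_cast
  have hD : (0 : ℝ) < ((q + 1).factorial : ℝ) ^ L := by positivity
  have hF : 0 < ratioF q n L := lt_trans (by positivity) hL1
  have heq : ((q + 1).factorial : ℝ) ^ L / (((q + 1).factorial : ℝ) ^ L * ratioF q n L) =
      1 / ratioF q n L := by
    field_simp
  rw [heq]
  constructor
  · calc a ≤ a' := haa'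
      _ < 1 / ratioF q n L := by
        rw [lt_div_iff₀ hF]
        rw [lt_div_iff₀ ha'] at hL2
        linarith
  · rw [div_lt_iff₀ hF]
    rw [div_lt_iff₀ hbpos] at hL1
    linarith

end Pool.Agent.Results.MP_864c98_co.DenseRatio
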